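import Pool.Agent.Y200.QB.Top

/-!
Unirationality of double covers of products of projective spaces: quadric bundles over
`ℙ¹ × ℙⁿ¹ × … × ℙⁿᵐ`.

Let `k` be an algebraically closed field of characteristic zero and let
`X : y² = f(v) · Q(v; t; x₁, …, xₘ)`, where `v` is one variable, `t` and `x₁, …, xₘ` are blocks of
variables, `f ≠ 0` is any polynomial in `v` and `Q` is an irreducible polynomial of degree at most
`2` in the block `t` (which must occur in `Q`), of degree at most `4` in each of the blocks
`x₁, …, xₘ` and of arbitrary degree in `v`. Then `X` is unirational.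

In projective terms: double covers of `ℙ¹ × ℙⁿ⁰ × ℙⁿ¹ × … × ℙⁿᵐ` branched along an irreducible
divisor of multidegree `(2a, 2, 4, …, 4)` and fibres of the first projection. For `n₀ = 1` these are
conic bundles over `ℙ¹ × ℙⁿ¹ × … × ℙⁿᵐ` with discriminant of multidegree `(∗, 8, …, 8)`; already
for `m = 1`, `n₁ = 1` these are threefolds which are conic bundles over `ℙ¹ × ℙ¹` such that the
conic bundle surfaces over the lines `{v} × ℙ¹` have eight degenerate fibres.

Method: over `F = k(v)` the conic over a general constant point `c` has a point by Tsen's theorem.
For one variable `x` write `Q(t, c + ξ) = q₀(t) + q₁(t) ξ + … + q₄(t) ξ⁴`; for a point `(t, Y)` of the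
conic `Y² = q₀(t)` the parabola `y = Y + q₁/(2Y) ξ + …` osculates the genus one curve
`y² = Q(t, c + ξ)` and meets it in one further point `ξ(t)`, a rational function of `t` which is
not constant if `q₀` does not divide `q₁`. So `F(s)` contains a point of `X` over `F(ξ)`, and one
continues with the next block over the field `F(ξ)`. Blocks of several variables are treated with
lines in generic directions.
-/

set_option autoImplicit false

open MvPolynomial

namespace Pool.Agent.Results.MP_2095a9_ag.QuarticQuadraticDoubleCovers

universe u

variable {k : Type u} [Field k] {N m : ℕ}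

/-- The variables are `v = X 0` and `X i.succ` for `i : Fin N`, and `b i` is the number of the block
of the variable `X i.succ`. The polynomial `Q` has degree at most `D` in the variables of the block
`l`: in every monomial of `Q` the sum of the exponents of these variables is at most `D`. -/
def BlockDegreeLE (b : Fin N → Fin (m + 1)) (Q : MvPolynomial (Fin (N + 1)) k) (l : Fin (m + 1))
    (D : ℕ) : Prop :=
  ∀ d ∈ Q.support, ∑ i with b i = l, d i.succ ≤ D

/-- The double cover `y² = R` of affine space (`y = X 0`, the other variables are shifted by one) is
unirational: it has a point `P` with coordinates in a field `k(s₁, …, sₙ)` of rational functions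
such that the polynomials which vanish at `P` are exactly the multiples of `y² - R`. -/
def Unirational (R : MvPolynomial (Fin (N + 1)) k) : Prop :=
  ∃ (n : ℕ) (P : Fin (N + 2) → FractionRing (MvPolynomial (Fin n) k)),
    ∀ G : MvPolynomial (Fin (N + 2)) k, aeval P G = 0 ↔ (X 0 ^ 2 - rename Fin.succ R) ∣ G

/-- The block `0` is the block `t`, the block `j.succ` is the block `x_j`. If `f` is a polynomial in
`v` only, if `Q` is irreducible, of degree at most two in the block `t` and not independent of
it, and of degree at most four in each block `x_j`, then `y² = f Q` is unirational. -/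
theorem result (k : Type u) [Field k] [IsAlgClosed k] [CharZero k] (N m : ℕ)
    (b : Fin N → Fin (m + 1)) (f Q : MvPolynomial (Fin (N + 1)) k)
    (hf : f ≠ 0) (hfv : ∀ i : Fin N, degreeOf i.succ f = 0) (hQ : Irreducible Q)
    (ht : BlockDegreeLE b Q 0 2) (hx : ∀ j : Fin m, BlockDegreeLE b Q j.succ 4)
    (h0 : ∃ i, b i = 0 ∧ degreeOf i.succ Q ≠ 0) :
    Unirational (f * Q) :=
  Pool.Agent.Y200.QB.unirational_double b f Q hf hfv hQ ht (fun d hd j => hx j d hd) h0

end Pool.Agent.Results.MP_2095a9_ag.QuarticQuadraticDoubleCovers
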